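import Mathlib
import Pool.Agent.H44.PT1

namespace Pool.Agent.Results.MP_195d30_co.Lower

open Pool.Agent.H44.OS Pool.Agent.H44.PT

theorem result : ∀ (n : ℕ) (G : SimpleGraph (Fin n)) (T : Finset (Finset (Fin n))), 3 ≤ n →
    Tri G T → ∃ A, IsStop A ∧ √3 / 18 * n - 1 ≤ score G A :=
  fun _ _ _ hn h => lower h hn

end Pool.Agent.Results.MP_195d30_co.Lower
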